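import Pool.Agent.Q197.HS.Step

/-! The base case, passage to higher levels, and the iteration. -/

set_option autoImplicit false

open H460 Finset

namespace Pool.Agent.Q197.HS

theorem base_one {E : Type} [NormedAddCommGroup E] [InnerProductSpace ℝ E]
    [FiniteDimensional ℝ E] {L : AddSubgroup E} (h : Disc L) {s : ℕ} (hs : rk L ≤ s)
    (hk : 1 ≤ rk L) (h1 : ∀ x ∈ L, x ≠ 0 → 1 ≤ ‖x‖) :
    lw L ≤ rk L * ((s + 5) * Real.log 2) := by
  have h2 := ph_apriori h h1 hk 0
  have h3 := w_le h 0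
  rw [zero_mul, pow_zero, pow_zero, div_one] at h3
  have h4 : ph L ((0 : ℕ) : ℤ) = Real.logb 2 (th L 0 1) := by
    unfold ph
    simp
  rw [h4] at h2
  have hlog2 : (0 : ℝ) < Real.log 2 := Real.log_pos (by norm_num)
  have h5 : lw L ≤ Real.log (th L 0 1) := Real.log_le_log (w_pos h) h3
  have h6 : Real.logb 2 (th L 0 1) = Real.log (th L 0 1) / Real.log 2 := rfl
  rw [h6, div_le_iff₀ hlog2] at h2
  have hr1 : (1 : ℝ) ≤ rk L := by exact_mod_cast hk
  have hrs : (rk L : ℝ) ≤ s := by exact_mod_cast hs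
  have hlogr : Real.logb 2 (rk L) ≤ rk L := by
    rw [Real.logb_le_iff_le_rpow (by norm_num) (by linarith), Real.rpow_natCast]
    exact_mod_cast (Nat.lt_two_pow_self (n := rk L)).le
  refine h5.trans (h2.trans ?_)
  rw [← mul_assoc]
  refine mul_le_mul_of_nonneg_right ?_ hlog2.le
  push_cast
  nlinarith

theorem base (s : ℕ) : Bd s 0 (2 * (s + 6) * Real.log 2) := by
  intro E _ _ _ ρ L hS hs l hl hmin
  have hs0 : rk L ≤ s := by
    have h0 := hs (fun _ => 1)
    rwa [Finset.univ_eq_empty, sub_empty] at h0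
  rcases Nat.eq_zero_or_pos (rk L) with h0 | hpos
  · have hL : L = ⊥ := rk_eq_zero.mp h0
    have : lw L = 0 := by
      unfold lw
      rw [hL, w_bot, Real.log_one]
    rw [this, h0]
    simp
  have hlog2 : (0 : ℝ) < Real.log 2 := Real.log_pos (by norm_num)
  have hsl : 0 < √l := Real.sqrt_pos.mpr hl
  set i : ℤ := Int.log 2 (√l) with hi
  have hi1 : (2 : ℝ) ^ i ≤ √l := by exact_mod_cast Int.zpow_log_le_self (b := 2) (by norm_num) hsl
  have hi2 : √l < (2 : ℝ) ^ (i + 1) := by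
    exact_mod_cast Int.lt_zpow_succ_log_self (b := 2) (by norm_num) (√l)
  have hc : ((2 : ℝ) ^ (-i)) ≠ 0 := by positivity
  obtain ⟨hd', hrk'⟩ := disc_scl hS.disc hc
  have h1 : ∀ x ∈ scl ((2 : ℝ) ^ (-i)) L, x ≠ 0 → 1 ≤ ‖x‖ := by
    intro x hx hx0
    unfold scl at hx
    rw [AddSubgroup.mem_map] at hx
    obtain ⟨y, hy, rfl⟩ := hx
    have hyx : (LinearMap.lsmul ℝ E ((2 : ℝ) ^ (-i))).toAddMonoidHom y = (2 : ℝ) ^ (-i) • y := rfl
    rw [hyx] at hx0 ⊢
    have hy0 : y ≠ 0 := by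
      rintro rfl
      exact hx0 (smul_zero _)
    have h2 := hmin y hy hy0
    have h3 : √l < ‖y‖ := by
      rw [Real.sqrt_lt' (norm_pos_iff.mpr hy0)]
      exact h2
    rw [norm_smul, Real.norm_of_nonneg (by positivity), zpow_neg]
    rw [← div_eq_inv_mul, le_div_iff₀ (by positivity)]
    linarith
  have hb := base_one hd' (hrk'.le.trans hs0) (by rw [hrk']; exact hpos) h1
  rw [hrk'] at hb
  have hw := w_scl hS.disc (-i)
  have hlw : lw (scl ((2 : ℝ) ^ (-i)) L) = i * rk L * Real.log 2 + lw L := by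
    unfold lw
    rw [hw, Real.log_mul (by positivity) (w_pos hS.disc).ne', Real.log_zpow]
    push_cast
    ring
  rw [hlw] at hb
  have hi3 : Real.log l < 2 * ((i + 1) * Real.log 2) := by
    have h2 := Real.log_lt_log hsl hi2
    rw [Real.log_sqrt hl.le, Real.log_zpow] at h2
    push_cast at h2
    linarith
  have hr : (0 : ℝ) < rk L := by exact_mod_cast hpos
  nlinarith

/-- passage to `m` more involutions -/
theorem level {s j : ℕ} {a : ℝ} (hB : Bd s j a) (m : ℕ) :
    Bd s (j + m) (a + m * Real.log 2) := by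
  intro E _ _ _ σ L hS hs l hl hmin
  set ρ : Fin m → E ≃ₗᵢ[ℝ] E := fun i => σ (Fin.natAdd j i) with hρdef
  set τ : Fin j → E ≃ₗᵢ[ℝ] E := fun i => σ (Fin.castAdd m i) with hτdef
  have hρ : Sym ρ L := ⟨hS.disc, fun i => hS.inv _, fun i k => hS.comm _ _, fun i => hS.stab _⟩
  have hst : ∀ (T : Finset (Fin m)) (e : Fin m → ℤˣ) (i : Fin j), ∀ x ∈ sub ρ T e L,
      τ i x ∈ sub ρ T e L := by
    intro T e i x hx
    refine ⟨hS.stab _ x hx.1, fun k hk => ?_⟩
    have := hx.2 k hk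
    have hc := hS.comm (Fin.natAdd j k) (Fin.castAdd m i) x
    show σ (Fin.natAdd j k) (σ (Fin.castAdd m i) x) = _
    rw [hc]
    have h2 : σ (Fin.natAdd j k) x = sg (e k) • x := this
    rw [h2, map_smul]
  have hB' : ∀ e : Fin m → ℤˣ, lw (sub ρ univ e L) ≤ (rk (sub ρ univ e L) : ℝ) / 2 *
      (a - Real.log l) := by
    intro e
    exact hB E τ _ ⟨hS.disc.mono (sub_le _ _ _ _), fun i => hS.inv _,
      fun i k => hS.comm _ _, hst univ e⟩ (fun e' => blk_rk hs e le_rfl e') l hl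
      (fun x hx hx0 => hmin x hx.1 hx0)
  have h1 := sum_lw_sub hρ univ
  rw [card_univ, Fintype.card_fin] at h1
  have h2 := le_of_mul_le_mul_left h1 (by positivity)
  have h3 := h2.trans (Finset.sum_le_sum fun e _ => hB' e)
  rw [← Finset.sum_mul, ← Finset.sum_div] at h3
  have h4 : ∑ e : Fin m → ℤˣ, (rk (sub ρ univ e L) : ℝ) = rk L := by exact_mod_cast rk_sum hρ
  rw [h4] at h3
  linarith

/-- an explicit tower: `0` and `K + 4 * 2 ^ (s * 2 ^ K)` after `K` -/
def tow (s : ℕ) : ℕ → ℕ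
  | 0 => 0
  | N + 1 => tow s N + 4 * 2 ^ (s * 2 ^ tow s N)

theorem iterate (s N : ℕ) : ∀ k, tow s N ≤ k →
    Bd s k (2 * (s + 6) * Real.log 2 + k * Real.log 2 - N / 30) := by
  induction N with
  | zero =>
    intro k _
    have h := level (base s) k
    rw [Nat.zero_add] at h
    simpa using h
  | succ N ih =>
    intro k hk
    set K := tow s N with hKdef
    set m : ℕ := 4 * 2 ^ (s * 2 ^ K) with hm
    have hk' : K + m ≤ k := hk
    obtain ⟨q, rfl⟩ := Nat.exists_eq_add_of_le hk'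
    have h := level (step (ih K le_rfl) hm) q
    have e : 2 * ((s : ℝ) + 6) * Real.log 2 + K * Real.log 2 - N / 30 + m * Real.log 2 - 1 / 30 +
        q * Real.log 2 = 2 * (s + 6) * Real.log 2 + ((K + m + q : ℕ) : ℝ) * Real.log 2 -
        ((N + 1 : ℕ) : ℝ) / 30 := by
      push_cast
      ring
    rwa [e] at h

end Pool.Agent.Q197.HS
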