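import Pool.Agent.Q197.HS.Iter
import Pool.Agent.TH220.HG.Sub

/-! The quantity `w` and the determinant. -/

set_option autoImplicit false

open H460 Finset MeasureTheory
open scoped ENNReal

namespace Pool.Agent.Q197.HS

/-- the point `A v` of Euclidean space -/
noncomputable def pt {n : ℕ} (A : Matrix (Fin n) (Fin n) ℝ) (v : Fin n → ℝ) :
    EuclideanSpace ℝ (Fin n) := WithLp.toLp 2 (A.mulVec v)

/-- the lattice `A ℤⁿ` -/
noncomputable def lat {n : ℕ} (A : Matrix (Fin n) (Fin n) ℝ) :
    AddSubgroup (EuclideanSpace ℝ (Fin n)) :=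
  AddSubgroup.closure (Set.range fun j => pt A (Pi.single j 1))

theorem pt_add {n : ℕ} (A : Matrix (Fin n) (Fin n) ℝ) (v v' : Fin n → ℝ) :
    pt A (v + v') = pt A v + pt A v' := by
  unfold pt
  rw [Matrix.mulVec_add, WithLp.toLp_add]

theorem pt_smul {n : ℕ} (A : Matrix (Fin n) (Fin n) ℝ) (c : ℝ) (v : Fin n → ℝ) :
    pt A (c • v) = c • pt A v := by
  unfold pt
  rw [Matrix.mulVec_smul, WithLp.toLp_smul]

/-- `pt A` as a linear map -/
noncomputable def ptL {n : ℕ} (A : Matrix (Fin n) (Fin n) ℝ) :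
    (Fin n → ℝ) →ₗ[ℝ] EuclideanSpace ℝ (Fin n) where
  toFun := pt A
  map_add' := pt_add A
  map_smul' := pt_smul A

theorem pt_inj {n : ℕ} {A : Matrix (Fin n) (Fin n) ℝ} (hA : A.det ≠ 0) :
    Function.Injective (pt A) := by
  intro v v' h
  have h1 : A.mulVec v = A.mulVec v' := WithLp.toLp_injective 2 h
  exact Matrix.mulVec_injective_of_isUnit ((Matrix.isUnit_iff_isUnit_det A).mpr
    (isUnit_iff_ne_zero.mpr hA)) h1

theorem mem_lat {n : ℕ} {A : Matrix (Fin n) (Fin n) ℝ} {x : EuclideanSpace ℝ (Fin n)} :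
    x ∈ lat A ↔ ∃ z : Fin n → ℤ, x = pt A (fun j => (z j : ℝ)) := by
  constructor
  · intro hx
    refine AddSubgroup.closure_induction
      (p := fun x _ => ∃ z : Fin n → ℤ, x = pt A (fun j => (z j : ℝ))) ?_ ?_ ?_ ?_ hx
    · rintro _ ⟨j, rfl⟩
      refine ⟨Pi.single j 1, ?_⟩
      show pt A (Pi.single j 1) = _
      congr 1
      funext i
      by_cases h : i = j
      · subst h; simp
      · simp [Pi.single_eq_of_ne h]
    · refine ⟨0, ?_⟩
      have : (fun j : Fin n => (((0 : Fin n → ℤ) j : ℤ) : ℝ)) = 0 := by funext j; simp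
      rw [this]
      exact (map_zero (ptL A)).symm
    · rintro _ _ _ _ ⟨z, rfl⟩ ⟨z', rfl⟩
      refine ⟨z + z', ?_⟩
      rw [← pt_add]
      congr 1
      funext j
      simp
    · rintro _ _ ⟨z, rfl⟩
      refine ⟨-z, ?_⟩
      have : (fun j : Fin n => (((-z) j : ℤ) : ℝ)) = -(fun j => (z j : ℝ)) := by funext j; simp
      rw [this]
      exact (map_neg (ptL A) _).symm
  · rintro ⟨z, rfl⟩
    have h : (fun j : Fin n => (z j : ℝ)) = ∑ j, (z j : ℝ) • (Pi.single j (1 : ℝ)) := by
      funext i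
      simp [Finset.sum_apply, Pi.single_apply]
    have h2 : pt A (fun j => (z j : ℝ)) = ∑ j, (z j) • pt A (Pi.single j 1) := by
      rw [h]
      have : pt A (∑ j, (z j : ℝ) • (Pi.single j (1 : ℝ))) =
          ptL A (∑ j, (z j : ℝ) • (Pi.single j (1 : ℝ))) := rfl
      rw [this, map_sum]
      refine Finset.sum_congr rfl fun j _ => ?_
      rw [map_smul]
      exact Int.cast_smul_eq_zsmul ℝ _ _
    rw [h2]
    exact AddSubgroup.sum_mem _ fun j _ => AddSubgroup.zsmul_mem _
      (AddSubgroup.subset_closure (Set.mem_range_self j)) _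

theorem lat_disc {n : ℕ} {A : Matrix (Fin n) (Fin n) ℝ} (hA : A.det ≠ 0) :
    Disc (lat A) ∧ rk (lat A) = n := by
  refine disc_closure ?_
  have h1 : LinearIndependent ℝ (fun j : Fin n => (Pi.single j (1 : ℝ) : Fin n → ℝ)) := by
    have := (Pi.basisFun ℝ (Fin n)).linearIndependent
    have e : (fun j : Fin n => (Pi.single j (1 : ℝ) : Fin n → ℝ)) = ⇑(Pi.basisFun ℝ (Fin n)) := by
      funext j
      simp
    rw [e]
    exact this
  exact h1.map' (ptL A) (LinearMap.ker_eq_bot.mpr (pt_inj hA))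

theorem gauss_lint (n : ℕ) {t : ℝ} (ht : 0 < t) :
    ∫⁻ y : Fin n → ℝ, ENNReal.ofReal (Real.exp (-t * ∑ i, y i ^ 2)) =
      ENNReal.ofReal (√(Real.pi / t) ^ n) := by
  have h1 : ∀ y : Fin n → ℝ, Real.exp (-t * ∑ i, y i ^ 2) =
      ∏ i, Real.exp (-t * y i ^ 2) := by
    intro y
    rw [← Real.exp_sum, Finset.mul_sum]
  have hint : Integrable (fun y : Fin n → ℝ => ∏ i, Real.exp (-t * y i ^ 2)) :=
    Integrable.fintype_prod (f := fun _ x => Real.exp (-t * x ^ 2))
      fun _ => integrable_exp_neg_mul_sq ht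
  simp only [h1]
  rw [← ofReal_integral_eq_lintegral_ofReal hint
    (Filter.Eventually.of_forall fun y => Finset.prod_nonneg fun i _ => (Real.exp_pos _).le)]
  congr 1
  rw [integral_fintype_prod_volume_eq_prod (fun _ x => Real.exp (-t * x ^ 2))]
  rw [Finset.prod_const, card_univ, Fintype.card_fin, integral_gaussian]

theorem poisson_le {n : ℕ} {A : Matrix (Fin n) (Fin n) ℝ} (hA : A.det ≠ 0) {t : ℝ}
    (ht : 0 < t) : √(Real.pi / t) ^ n / |A.det| ≤ th (lat A) 0 t := by
  classical
  have hdisc := (lat_disc hA).1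
  set b := Pi.basisFun ℝ (Fin n) with hb
  set L : AddSubgroup (Fin n → ℝ) := (Submodule.span ℤ (Set.range b)).toAddSubgroup with hL
  have fund : IsAddFundamentalDomain L (ZSpan.fundamentalDomain b) volume :=
    ZSpan.isAddFundamentalDomain' b volume
  have hvol : volume (ZSpan.fundamentalDomain b) = 1 := by
    rw [ZSpan.volume_fundamentalDomain]
    have : (Matrix.of b) = (1 : Matrix (Fin n) (Fin n) ℝ) := by
      ext i j
      simp [hb, Matrix.one_apply, Pi.single_apply, eq_comm]
    rw [this]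
    simp
  have hcount : Countable L :=
    inferInstanceAs (Countable (Submodule.span ℤ (Set.range b)))
  have hLmem : ∀ g : L, pt A (g : Fin n → ℝ) ∈ lat A := by
    intro g
    have hx := g.2
    have hx' : (g : Fin n → ℝ) ∈ Submodule.span ℤ (Set.range b) := hx
    rw [b.mem_span_iff_repr_mem ℤ] at hx'
    choose w hw using hx'
    refine mem_lat.mpr ⟨w, ?_⟩
    congr 1
    funext j
    have := hw j
    simp [hb] at this
    exact this.symm
  set F : (Fin n → ℝ) → ℝ≥0∞ := fun x => ENNReal.ofReal (Real.exp (-t * ‖pt A x‖ ^ 2)) with hF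
  have hFm : Measurable F := by
    have hc : Continuous (pt A) := (ptL A).continuous_of_finiteDimensional
    exact (ENNReal.continuous_ofReal.comp (Real.continuous_exp.comp
      (continuous_const.mul (hc.norm.pow 2)))).measurable
  have hle : ∀ x : Fin n → ℝ, ∑' g : L, F (g +ᵥ x) ≤ ENNReal.ofReal (th (lat A) 0 t) := by
    intro x
    have h1 : ENNReal.ofReal (th (lat A) (pt A x) t) =
        ∑' y : lat A, ENNReal.ofReal (Real.exp (-t * ‖(y : EuclideanSpace ℝ (Fin n)) +
          pt A x‖ ^ 2)) :=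
      ENNReal.ofReal_tsum_of_nonneg (fun _ => (Real.exp_pos _).le)
        (th_summable hdisc (pt A x) ht)
    refine le_trans ?_ (ENNReal.ofReal_le_ofReal (th_shift_le hdisc (pt A x) ht))
    rw [h1]
    have hinj : Function.Injective (fun g : L => (⟨pt A (g : Fin n → ℝ), hLmem g⟩ : lat A)) := by
      intro g g' hg
      exact Subtype.ext (pt_inj hA (congrArg Subtype.val hg))
    refine le_trans (le_of_eq ?_) (ENNReal.tsum_comp_le_tsum_of_injective hinj _)
    refine tsum_congr fun g => ?_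
    have : (g +ᵥ x : Fin n → ℝ) = (g : Fin n → ℝ) + x := rfl
    simp only [hF, this, pt_add]
  have h1 : ∫⁻ x, F x ≤ ENNReal.ofReal (th (lat A) 0 t) := by
    rw [fund.lintegral_eq_tsum'' F]
    rw [← lintegral_tsum (f := fun (g : L) x => F (g +ᵥ x)) (fun g => (hFm.comp (measurable_const_vadd g)).aemeasurable)]
    calc ∫⁻ x in ZSpan.fundamentalDomain b, ∑' g : L, F (g +ᵥ x) ≤
        ∫⁻ _ in ZSpan.fundamentalDomain b, ENNReal.ofReal (th (lat A) 0 t) :=
          lintegral_mono fun x => hle x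
      _ = _ := by rw [setLIntegral_const, hvol, mul_one]
  have h2 : ∫⁻ x, F x = ENNReal.ofReal (√(Real.pi / t) ^ n / |A.det|) := by
    set g : (Fin n → ℝ) →ₗ[ℝ] (Fin n → ℝ) := Matrix.toLin' A with hg
    have hgdet : LinearMap.det g = A.det := by rw [hg, LinearMap.det_toLin']
    have hgc : Continuous g := LinearMap.continuous_of_finiteDimensional g
    set H : (Fin n → ℝ) → ℝ≥0∞ := fun y => ENNReal.ofReal (Real.exp (-t * ∑ i, y i ^ 2)) with hH
    have hHm : Measurable H := by
      refine (ENNReal.continuous_ofReal.comp (Real.continuous_exp.comp ?_)).measurable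
      fun_prop
    have h3 : ∀ x, F x = H (g x) := by
      intro x
      simp only [hF, hH, hg, Matrix.toLin'_apply]
      congr 3
      unfold pt
      rw [EuclideanSpace.norm_sq_eq]
      simp [sq_abs]
    rw [lintegral_congr h3, ← lintegral_map hHm hgc.measurable,
      Measure.map_linearMap_addHaar_eq_smul_addHaar volume (by rw [hgdet]; exact hA),
      lintegral_smul_measure, gauss_lint n ht, hgdet, smul_eq_mul,
      ← ENNReal.ofReal_mul (abs_nonneg _), abs_inv]
    congr 1
    rw [div_eq_inv_mul (√(Real.pi / t) ^ n)]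
  rw [h2] at h1
  exact (ENNReal.ofReal_le_ofReal_iff (ThA_nonneg _ _ _)).mp h1

theorem lw_ge {n : ℕ} {A : Matrix (Fin n) (Fin n) ℝ} (hA : A.det ≠ 0) :
    -Real.log |A.det| ≤ lw (lat A) := by
  obtain ⟨hd, hrk⟩ := lat_disc hA
  have hpi : (1 : ℝ) ≤ √Real.pi := by
    rw [Real.one_le_sqrt]
    linarith [Real.pi_gt_three]
  have hdet : 0 < |A.det| := abs_pos.mpr hA
  have h1 : 1 / |A.det| ≤ w (lat A) := by
    refine ge_of_tendsto' (w_tendsto hd) fun j => ?_
    have h2 := poisson_le hA (t := (1 / 4 : ℝ) ^ j) (by positivity)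
    rw [hrk, le_div_iff₀ (by positivity)]
    refine le_trans ?_ h2
    have h3 : √(Real.pi / (1 / 4 : ℝ) ^ j) = √Real.pi * 2 ^ j := by
      have : Real.pi / (1 / 4 : ℝ) ^ j = Real.pi * (2 ^ j) ^ 2 := by
        rw [one_div, inv_pow, div_inv_eq_mul, ← pow_mul, mul_comm j 2, pow_mul]
        norm_num
      rw [this, Real.sqrt_mul Real.pi_pos.le, Real.sqrt_sq (by positivity)]
    rw [h3, mul_pow, ← pow_mul, div_mul_eq_mul_div, one_mul]
    refine div_le_div_of_nonneg_right ?_ hdet.le
    exact le_mul_of_one_le_left (by positivity) (one_le_pow₀ hpi)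
  have h4 := Real.log_le_log (by positivity) h1
  rw [Real.log_div one_ne_zero hdet.ne', Real.log_one, zero_sub] at h4
  exact h4

end Pool.Agent.Q197.HS
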