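import Pool.Agent.Q197.HS.Link

/-! Hermite's constant for lattices with many commuting isometric involutions. -/

set_option autoImplicit false

open H460 Finset Filter Pool.Agent.H160R3.Herm Pool.Agent.TH220.HG
open scoped Topology

namespace Pool.Agent.Q197.HS

/-- the vectors which each `ρ i` multiplies by the sign `e i` -/
def eigen {n k : ℕ} (ρ : Fin k → EuclideanSpace ℝ (Fin n) ≃ₗᵢ[ℝ] EuclideanSpace ℝ (Fin n))
    (e : Fin k → ℤˣ) : Submodule ℝ (EuclideanSpace ℝ (Fin n)) where
  carrier := {x | ∀ i, ρ i x = sg (e i) • x}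
  add_mem' := by
    intro x y hx hy i
    rw [map_add, hx i, hy i, smul_add]
  zero_mem' := by intro i; simp
  smul_mem' := by
    intro c x hx i
    rw [map_smul, hx i, smul_comm]

/-- `ρ 0, ..., ρ (k-1)` are commuting isometric involutions of `ℝⁿ` which preserve the lattice
`A ℤⁿ`, and every character of the group generated by them has multiplicity at most `s` -/
structure IsoSym (s : ℕ) {n k : ℕ} (A : Matrix (Fin n) (Fin n) ℝ)
    (ρ : Fin k → EuclideanSpace ℝ (Fin n) ≃ₗᵢ[ℝ] EuclideanSpace ℝ (Fin n)) : Prop where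
  inv : ∀ i x, ρ i (ρ i x) = x
  comm : ∀ i j x, ρ i (ρ j x) = ρ j (ρ i x)
  stab : ∀ i (z : Fin n → ℤ), ∃ z' : Fin n → ℤ,
    ρ i (pt A fun j => (z j : ℝ)) = pt A fun j => (z' j : ℝ)
  mult : ∀ e : Fin k → ℤˣ, Module.finrank ℝ (eigen ρ e) ≤ s

theorem norm_pt {n : ℕ} (A : Matrix (Fin n) (Fin n) ℝ) (z : Fin n → ℤ) :
    ‖pt A fun j => (z j : ℝ)‖ ^ 2 = nsq A z := by
  unfold pt nsq
  rw [EuclideanSpace.norm_sq_eq]
  simp [sq_abs]

theorem IsoSym.sym {s n k : ℕ} {A : Matrix (Fin n) (Fin n) ℝ} (hA : A.det ≠ 0)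
    {ρ : Fin k → EuclideanSpace ℝ (Fin n) ≃ₗᵢ[ℝ] EuclideanSpace ℝ (Fin n)}
    (h : IsoSym s A ρ) : Sym ρ (lat A) where
  disc := (lat_disc hA).1
  inv := h.inv
  comm := h.comm
  stab := by
    intro i x hx
    obtain ⟨z, rfl⟩ := mem_lat.mp hx
    obtain ⟨z', hz'⟩ := h.stab i z
    exact mem_lat.mpr ⟨z', hz'⟩

theorem explicit {s N k : ℕ} (hk : tow s N ≤ k) {n : ℕ} {A : Matrix (Fin n) (Fin n) ℝ}
    {ρ : Fin k → EuclideanSpace ℝ (Fin n) ≃ₗᵢ[ℝ] EuclideanSpace ℝ (Fin n)}
    (hn : 0 < n) (hA : A.det ≠ 0) (hρ : IsoSym s A ρ) :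
    n ≤ s * 2 ^ k ∧ gam A ≤ 4 ^ (s + 6) * Real.exp (-(N / 30)) * 2 ^ k := by
  have hblk : ∀ e : Fin k → ℤˣ, rk (sub ρ univ e (lat A)) ≤ s := by
    intro e
    refine le_trans ?_ (hρ.mult e)
    unfold rk
    refine Submodule.finrank_mono ?_
    rw [Submodule.span_le]
    intro x hx i
    exact hx.2 i (mem_univ _)
  constructor
  · have := rk_le (hρ.sym hA) hblk
    rwa [(lat_disc hA).2] at this
  by_contra hcon
  rw [not_le] at hcon
  set ε : ℝ := 4 ^ (s + 6) * Real.exp (-(N / 30)) with hεdef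
  have hε : 0 < ε := by positivity
  have hdet : 0 < |A.det| := abs_pos.mpr hA
  have hn' : (0 : ℝ) < n := by exact_mod_cast hn
  -- a slightly larger bound
  obtain ⟨g, hg1, hg2⟩ := exists_between hcon
  have hgpos : 0 < g := lt_trans (by positivity) hg1
  set l : ℝ := g * |A.det| ^ ((2 : ℝ) / n) with hl
  have hlpos : 0 < l := by positivity
  have hlt : l < minSq A := by
    unfold gam at hg2
    rwa [lt_div_iff₀ (by positivity)] at hg2
  have hmin : ∀ x ∈ lat A, x ≠ 0 → l < ‖x‖ ^ 2 := by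
    intro x hx hx0
    obtain ⟨z, rfl⟩ := mem_lat.mp hx
    have hz : z ≠ 0 := by
      rintro rfl
      apply hx0
      have : (fun j : Fin n => (((0 : Fin n → ℤ) j : ℤ) : ℝ)) = 0 := by funext j; simp
      rw [this]
      exact map_zero (ptL A)
    rw [norm_pt]
    refine hlt.trans_le ?_
    unfold minSq
    exact ciInf_le ⟨0, by rintro _ ⟨w, rfl⟩; exact Finset.sum_nonneg fun _ _ => sq_nonneg _⟩
      (⟨z, hz⟩ : {w : Fin n → ℤ // w ≠ 0})
  have h1 := iterate s N k hk _ ρ (lat A) (hρ.sym hA) hblk l hlpos hmin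
  have h2 := (lw_ge hA).trans h1
  rw [(lat_disc hA).2] at h2
  have h3 : Real.log l = Real.log g + 2 / n * Real.log |A.det| := by
    rw [hl, Real.log_mul hgpos.ne' (by positivity), Real.log_rpow hdet]
  rw [h3] at h2
  have h4 : (n : ℝ) / 2 * (2 * (s + 6) * Real.log 2 + k * Real.log 2 - N / 30 -
      (Real.log g + 2 / n * Real.log |A.det|)) =
      (n : ℝ) / 2 * (2 * (s + 6) * Real.log 2 + k * Real.log 2 - N / 30 - Real.log g) -
        Real.log |A.det| := by
    field_simp
    ring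
  rw [h4] at h2
  have h6 : Real.log (ε * 2 ^ k) < Real.log g := Real.log_lt_log (by positivity) hg1
  have h7 : Real.log (ε * 2 ^ k) = 2 * (s + 6) * Real.log 2 - N / 30 + k * Real.log 2 := by
    rw [Real.log_mul hε.ne' (by positivity), Real.log_pow, hεdef,
      Real.log_mul (by positivity) (Real.exp_pos _).ne', Real.log_exp, Real.log_pow]
    have : Real.log 4 = 2 * Real.log 2 := by
      rw [show (4 : ℝ) = 2 ^ 2 by norm_num, Real.log_pow]
      norm_num
    rw [this]
    push_cast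
    ring
  have h5 : (n : ℝ) / 2 * (2 * (s + 6) * Real.log 2 + k * Real.log 2 - N / 30 - Real.log g) <
      0 := by
    refine mul_neg_of_pos_of_neg (by positivity) ?_
    linarith
  linarith

theorem uniform (s : ℕ) {ε : ℝ} (hε : 0 < ε) : ∃ K : ℕ, ∀ k, K ≤ k →
    ∀ (n : ℕ) (A : Matrix (Fin n) (Fin n) ℝ)
      (ρ : Fin k → EuclideanSpace ℝ (Fin n) ≃ₗᵢ[ℝ] EuclideanSpace ℝ (Fin n)),
      0 < n → A.det ≠ 0 → IsoSym s A ρ → gam A ≤ ε * 2 ^ k := by
  obtain ⟨N, hN⟩ := exists_nat_gt (30 * (Real.log (4 ^ (s + 6)) - Real.log ε))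
  refine ⟨tow s N, fun k hk n A ρ hn hA hρ => (explicit hk hn hA hρ).2.trans ?_⟩
  refine mul_le_mul_of_nonneg_right ?_ (by positivity)
  rw [← Real.log_le_log_iff (by positivity) hε, Real.log_mul (by positivity)
    (Real.exp_pos _).ne', Real.log_exp]
  linarith

theorem gam_nonneg {n : ℕ} (A : Matrix (Fin n) (Fin n) ℝ) : 0 ≤ gam A := by
  unfold gam minSq
  refine div_nonneg (Real.iInf_nonneg fun _ => Finset.sum_nonneg fun _ _ => sq_nonneg _) ?_
  positivity

section Perm

/-- the permutation of the coordinates -/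
noncomputable def permIso {n : ℕ} (π : Equiv.Perm (Fin n)) :
    EuclideanSpace ℝ (Fin n) ≃ₗᵢ[ℝ] EuclideanSpace ℝ (Fin n) :=
  LinearIsometryEquiv.piLpCongrLeft 2 ℝ ℝ π

theorem permIso_apply {n : ℕ} (π : Equiv.Perm (Fin n)) (x : EuclideanSpace ℝ (Fin n))
    (i : Fin n) : permIso π x i = x (π.symm i) := rfl

/-- the multiplicities are at most the number of orbits -/
theorem finrank_perm {n k : ℕ} (π : Fin k → Equiv.Perm (Fin n)) (e : Fin k → ℤˣ) :
    Module.finrank ℝ (eigen (fun i => permIso (π i)) e) ≤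
      Nat.card (MulAction.orbitRel.Quotient (Subgroup.closure (Set.range π)) (Fin n)) := by
  classical
  set G := Subgroup.closure (Set.range π) with hG
  set Q := MulAction.orbitRel.Quotient G (Fin n) with hQ
  have hfin : Finite Q := Quotient.finite _
  have := Fintype.ofFinite Q
  set f : eigen (fun i => permIso (π i)) e →ₗ[ℝ] (Q → ℝ) :=
    { toFun := fun x q => (x : EuclideanSpace ℝ (Fin n)) (Quotient.out q)
      map_add' := fun x y => rfl
      map_smul' := fun c x => rfl } with hf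
  have hinj : Function.Injective f := by
    rw [injective_iff_map_eq_zero]
    intro x hx
    have hinv : ∀ g ∈ G, ∀ y : Fin n, (x : EuclideanSpace ℝ (Fin n)) (g y) = 0 ↔
        (x : EuclideanSpace ℝ (Fin n)) y = 0 := by
      intro g hg
      refine Subgroup.closure_induction (p := fun g _ => ∀ y : Fin n,
        (x : EuclideanSpace ℝ (Fin n)) (g y) = 0 ↔ (x : EuclideanSpace ℝ (Fin n)) y = 0)
        ?_ ?_ ?_ ?_ hg
      · rintro _ ⟨i, rfl⟩ y
        have h1 := congrArg (fun v : EuclideanSpace ℝ (Fin n) => v (π i y)) (x.2 i)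
        have h2 : (x : EuclideanSpace ℝ (Fin n)) ((π i).symm (π i y)) =
            sg (e i) * (x : EuclideanSpace ℝ (Fin n)) (π i y) := h1
        rw [Equiv.symm_apply_apply] at h2
        rw [h2, mul_eq_zero]
        constructor
        · intro h; exact Or.inr h
        · rintro (h | h)
          · exact absurd h (sg_ne _)
          · exact h
      · intro y
        rfl
      · intro a b _ _ ha hb y
        have : (a * b) y = a (b y) := rfl
        rw [this, ha, hb]
      · intro a _ ha y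
        rw [← ha]
        have : a (a⁻¹ y) = y := by simp
        rw [this]
    apply Subtype.ext
    ext y
    have hy : ∃ g : G, g • (Quotient.out (Quotient.mk'' y : Q)) = y := by
      have h1 : (Quotient.mk'' (Quotient.out (Quotient.mk'' y : Q)) : Q) = Quotient.mk'' y :=
        Quotient.out_eq' _
      have h2 : MulAction.orbitRel G (Fin n) y (Quotient.out (Quotient.mk'' y : Q)) :=
        Quotient.exact' h1.symm
      exact MulAction.orbitRel_apply.mp h2
    obtain ⟨g, hg⟩ := hy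
    have h3 : (x : EuclideanSpace ℝ (Fin n)) (Quotient.out (Quotient.mk'' y : Q)) = 0 :=
      congrFun hx (Quotient.mk'' y : Q)
    have h4 := (hinv g.1 g.2 (Quotient.out (Quotient.mk'' y : Q))).mpr h3
    have h5 : (g.1 : Equiv.Perm (Fin n)) (Quotient.out (Quotient.mk'' y : Q)) = y := hg
    rw [h5] at h4
    exact h4
  have h := LinearMap.finrank_le_finrank_of_injective hinj
  rwa [Module.finrank_fintype_fun_eq_card, ← Nat.card_eq_fintype_card] at h

end Perm

end Pool.Agent.Q197.HS
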