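import Pool.Agent.Q197.HS.Main

/-! The theorem in terms of matrices. -/

set_option autoImplicit false

open H460 Finset Filter Pool.Agent.H160R3.Herm Pool.Agent.TH220.HG
open scoped Topology Matrix

namespace Pool.Agent.Q197.HS

/-- the joint eigenspace of the matrices `R i` for the signs `e i` -/
def jointEigenspace {n k : ℕ} (R : Fin k → Matrix (Fin n) (Fin n) ℝ) (e : Fin k → ℤˣ) :
    Submodule ℝ (Fin n → ℝ) :=
  ⨅ i, Module.End.eigenspace (Matrix.toLin' (R i)) ((e i : ℤ) : ℝ)

/-- `R 0, ..., R (k-1)` are commuting orthogonal involutions which preserve the lattice `A ℤⁿ`, and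
all their joint eigenspaces have dimension at most `s` -/
structure Symmetric (s : ℕ) {n k : ℕ} (A : Matrix (Fin n) (Fin n) ℝ)
    (R : Fin k → Matrix (Fin n) (Fin n) ℝ) : Prop where
  orthogonal : ∀ i, (R i)ᵀ * R i = 1
  involution : ∀ i, R i * R i = 1
  commute : ∀ i j, R i * R j = R j * R i
  lattice : ∀ i, ∃ Z : Matrix (Fin n) (Fin n) ℤ, R i * A = A * Z.map (fun z => (z : ℝ))
  multiplicity : ∀ e : Fin k → ℤˣ, Module.finrank ℝ (jointEigenspace R e) ≤ s

/-- the bounds for the rank and for the Hermite invariant of `A ℤⁿ` -/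
def Bounded (s k : ℕ) {n : ℕ} (A : Matrix (Fin n) (Fin n) ℝ) : Prop :=
  n ≤ s * 2 ^ k ∧ ∀ N : ℕ, tow s N ≤ k → gam A ≤ 4 ^ (s + 6) * Real.exp (-(N / 30)) * 2 ^ k

/-- Hermite's constant restricted to the lattices with such symmetries (of any rank) -/
noncomputable def symHermite (s k : ℕ) : ℝ :=
  sSup {g : ℝ | ∃ (n : ℕ) (A : Matrix (Fin n) (Fin n) ℝ)
    (R : Fin k → Matrix (Fin n) (Fin n) ℝ),
    0 < n ∧ A.det ≠ 0 ∧ Symmetric s A R ∧ g = gam A}

/-- `π 0, ..., π (k-1)` are commuting involutive permutations of the coordinates which preserve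
the lattice `A ℤⁿ` and generate a group with at most `s` orbits -/
structure PermSymmetric (s : ℕ) {n k : ℕ} (A : Matrix (Fin n) (Fin n) ℝ)
    (π : Fin k → Equiv.Perm (Fin n)) : Prop where
  involution : ∀ i, π i * π i = 1
  commute : ∀ i j, π i * π j = π j * π i
  lattice : ∀ i, ∃ Z : Matrix (Fin n) (Fin n) ℤ,
    A.submatrix (π i) id = A * Z.map (fun z => (z : ℝ))
  orbits : Nat.card (MulAction.orbitRel.Quotient (Subgroup.closure (Set.range π)) (Fin n)) ≤ s

/-- an orthogonal involution as an isometry -/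
noncomputable def isoOf {n : ℕ} (R : Matrix (Fin n) (Fin n) ℝ) (h1 : Rᵀ * R = 1)
    (h2 : R * R = 1) : EuclideanSpace ℝ (Fin n) ≃ₗᵢ[ℝ] EuclideanSpace ℝ (Fin n) where
  toFun x := WithLp.toLp 2 (R.mulVec x.ofLp)
  invFun x := WithLp.toLp 2 (R.mulVec x.ofLp)
  map_add' x y := by
    show WithLp.toLp 2 (R.mulVec (x.ofLp + y.ofLp)) =
      WithLp.toLp 2 (R.mulVec x.ofLp) + WithLp.toLp 2 (R.mulVec y.ofLp)
    rw [Matrix.mulVec_add, WithLp.toLp_add]
  map_smul' c x := by
    show WithLp.toLp 2 (R.mulVec (c • x.ofLp)) = c • WithLp.toLp 2 (R.mulVec x.ofLp)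
    rw [Matrix.mulVec_smul, WithLp.toLp_smul]
  left_inv x := by
    show WithLp.toLp 2 (R.mulVec (R.mulVec x.ofLp)) = x
    rw [Matrix.mulVec_mulVec, h2, Matrix.one_mulVec]
  right_inv x := by
    show WithLp.toLp 2 (R.mulVec (R.mulVec x.ofLp)) = x
    rw [Matrix.mulVec_mulVec, h2, Matrix.one_mulVec]
  norm_map' x := by
    have h3 : ‖(WithLp.toLp 2 (R.mulVec x.ofLp) : EuclideanSpace ℝ (Fin n))‖ ^ 2 = ‖x‖ ^ 2 := by
      rw [EuclideanSpace.norm_sq_eq, EuclideanSpace.norm_sq_eq]
      simp only [Real.norm_eq_abs, sq_abs]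
      have h4 : ∀ v : Fin n → ℝ, ∑ i, v i ^ 2 = v ⬝ᵥ v := fun v => by
        unfold dotProduct
        exact Finset.sum_congr rfl fun i _ => by ring
      rw [h4, h4, Matrix.dotProduct_mulVec, Matrix.vecMul_mulVec, h1, Matrix.vecMul_one]
    have h5 := congrArg Real.sqrt h3
    rwa [Real.sqrt_sq (norm_nonneg _), Real.sqrt_sq (norm_nonneg _)] at h5

theorem isoOf_apply {n : ℕ} (R : Matrix (Fin n) (Fin n) ℝ) (h1 : Rᵀ * R = 1)
    (h2 : R * R = 1) (x : EuclideanSpace ℝ (Fin n)) :
    isoOf R h1 h2 x = WithLp.toLp 2 (R.mulVec x.ofLp) := rfl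

theorem isoSym {s k n : ℕ} {A : Matrix (Fin n) (Fin n) ℝ}
    {R : Fin k → Matrix (Fin n) (Fin n) ℝ} (h : Symmetric s A R) :
    IsoSym s A (fun i => isoOf (R i) (h.orthogonal i) (h.involution i)) where
  inv i x := by
    rw [isoOf_apply, isoOf_apply, Matrix.mulVec_mulVec, h.involution, Matrix.one_mulVec]
  comm i j x := by
    rw [isoOf_apply, isoOf_apply, isoOf_apply, isoOf_apply, Matrix.mulVec_mulVec,
      Matrix.mulVec_mulVec, h.commute]
  stab i z := by
    obtain ⟨Z, hZ⟩ := h.lattice i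
    refine ⟨Z.mulVec z, ?_⟩
    rw [isoOf_apply]
    unfold pt
    congr 1
    rw [Matrix.mulVec_mulVec, hZ, ← Matrix.mulVec_mulVec]
    congr 1
    funext j
    simp [Matrix.mulVec, dotProduct, Matrix.map_apply]
  mult e := by
    refine le_trans ?_ (h.multiplicity e)
    set f : eigen (fun i => isoOf (R i) (h.orthogonal i) (h.involution i)) e →ₗ[ℝ]
      jointEigenspace R e :=
      { toFun := fun x => ⟨(x : EuclideanSpace ℝ (Fin n)).ofLp, by
          unfold jointEigenspace
          rw [Submodule.mem_iInf]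
          intro i
          rw [Module.End.mem_eigenspace_iff, Matrix.toLin'_apply]
          exact congrArg WithLp.ofLp (x.2 i)⟩
        map_add' := fun x y => rfl
        map_smul' := fun c x => rfl } with hf
    refine LinearMap.finrank_le_finrank_of_injective (f := f) ?_
    intro x y hxy
    apply Subtype.ext
    exact WithLp.ofLp_injective 2 (congrArg Subtype.val hxy)

theorem bounded {s k n : ℕ} {A : Matrix (Fin n) (Fin n) ℝ}
    {R : Fin k → Matrix (Fin n) (Fin n) ℝ}
    (hn : 0 < n) (hA : A.det ≠ 0) (h : Symmetric s A R) : Bounded s k A :=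
  ⟨(explicit (N := 0) (Nat.zero_le k) hn hA (isoSym h)).1,
    fun _ hk => (explicit hk hn hA (isoSym h)).2⟩

theorem bounded_perm {s k n : ℕ} {A : Matrix (Fin n) (Fin n) ℝ}
    {π : Fin k → Equiv.Perm (Fin n)}
    (hn : 0 < n) (hA : A.det ≠ 0) (h : PermSymmetric s A π) : Bounded s k A := by
  have hsymm : ∀ i x, (π i).symm x = π i x := by
    intro i x
    rw [Equiv.symm_apply_eq]
    have := congrArg (fun f : Equiv.Perm (Fin n) => f x) (h.involution i)
    exact this.symm
  have hI : IsoSym s A (fun i => permIso (π i)) := by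
    refine ⟨?_, ?_, ?_, fun e => (finrank_perm π e).trans h.orbits⟩
    · intro i x
      ext y
      rw [permIso_apply, permIso_apply, hsymm, hsymm]
      have := congrArg (fun f : Equiv.Perm (Fin n) => f y) (h.involution i)
      have h2 : π i (π i y) = y := this
      rw [h2]
    · intro i j x
      ext y
      rw [permIso_apply, permIso_apply, permIso_apply, permIso_apply, hsymm, hsymm, hsymm, hsymm]
      have := congrArg (fun f : Equiv.Perm (Fin n) => f y) (h.commute j i)
      have h2 : π j (π i y) = π i (π j y) := this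
      rw [h2]
    · intro i z
      obtain ⟨Z, hZ⟩ := h.lattice i
      refine ⟨Z.mulVec z, ?_⟩
      ext x
      rw [permIso_apply, hsymm]
      unfold pt
      have h3 : A.mulVec (fun j => (z j : ℝ)) (π i x) =
          (A.submatrix (π i) id).mulVec (fun j => (z j : ℝ)) x := rfl
      have h4 : (fun j => ((Z.mulVec z) j : ℝ)) =
          (Z.map (fun z => (z : ℝ))).mulVec (fun j => (z j : ℝ)) := by
        funext j
        simp [Matrix.mulVec, dotProduct, Matrix.map_apply]
      show A.mulVec (fun j => (z j : ℝ)) (π i x) = A.mulVec (fun j => ((Z.mulVec z) j : ℝ)) x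
      rw [h3, hZ, h4, Matrix.mulVec_mulVec]
  exact ⟨(explicit (N := 0) (Nat.zero_le k) hn hA hI).1, fun _ hk => (explicit hk hn hA hI).2⟩

theorem tendsto_sym (s : ℕ) :
    Tendsto (fun k : ℕ => symHermite s k / 2 ^ k) atTop (𝓝 0) := by
  rw [Metric.tendsto_atTop]
  intro ε hε
  obtain ⟨K, hK⟩ := uniform s (half_pos hε)
  refine ⟨K, fun k hk => ?_⟩
  have h0 : 0 ≤ symHermite s k := by
    refine Real.sSup_nonneg ?_
    rintro _ ⟨n, A, R, -, -, -, rfl⟩
    exact gam_nonneg A
  have h1 : symHermite s k ≤ ε / 2 * 2 ^ k := by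
    refine Real.sSup_le ?_ (by positivity)
    rintro _ ⟨n, A, R, hn, hA, hR, rfl⟩
    exact hK k hk n A _ hn hA (isoSym hR)
  rw [Real.dist_eq, sub_zero, abs_of_nonneg (by positivity), div_lt_iff₀ (by positivity)]
  have : (0 : ℝ) < 2 ^ k := by positivity
  nlinarith

theorem few {s : ℕ} {c : ℝ} (hc : 0 < c) :
    ∃ K : ℕ, ∀ (n k : ℕ) (A : Matrix (Fin n) (Fin n) ℝ) (R : Fin k → Matrix (Fin n) (Fin n) ℝ),
      0 < n → A.det ≠ 0 → Symmetric s A R → c * 2 ^ k ≤ gam A → k < K := by
  obtain ⟨K, hK⟩ := uniform s (half_pos hc)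
  refine ⟨K, fun n k A R hn hA hR hg => ?_⟩
  by_contra hk
  have h1 := hg.trans (hK k (not_lt.mp hk) n A _ hn hA (isoSym hR))
  have h2 : (0 : ℝ) < 2 ^ k := by positivity
  nlinarith

end Pool.Agent.Q197.HS
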