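import Pool.Agent.H460R2.WQ
import Pool.Agent.H460R2.ThC

/-! Splitting a lattice by an isometric involution. -/

set_option autoImplicit false

open H460

namespace Pool.Agent.Q197.HS

variable {E : Type*} [NormedAddCommGroup E] [InnerProductSpace ℝ E]

/-- a sign as a real number -/
def sg (u : ℤˣ) : ℝ := ((u : ℤ) : ℝ)

theorem sg_mul_self (u : ℤˣ) : sg u * sg u = 1 := by
  rcases Int.units_eq_one_or u with h | h <;> simp [sg, h]

theorem sg_neg (u : ℤˣ) : sg (-u) = -sg u := by simp [sg]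

theorem sg_ne (u : ℤˣ) : sg u ≠ 0 := by
  intro h
  have := sg_mul_self u
  rw [h] at this
  norm_num at this

/-- the vectors of `L` which `σ` multiplies by the sign `u` -/
def part (σ : E ≃ₗᵢ[ℝ] E) (u : ℤˣ) (L : AddSubgroup E) : AddSubgroup E where
  carrier := {x | x ∈ L ∧ σ x = sg u • x}
  add_mem' := by
    rintro x y ⟨hx, hx'⟩ ⟨hy, hy'⟩
    exact ⟨L.add_mem hx hy, by rw [map_add, hx', hy', smul_add]⟩
  zero_mem' := ⟨L.zero_mem, by simp⟩
  neg_mem' := by
    rintro x ⟨hx, hx'⟩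
    exact ⟨L.neg_mem hx, by rw [map_neg, hx', smul_neg]⟩

/-- `x ↦ x + u σ x` -/
noncomputable def phi (σ : E ≃ₗᵢ[ℝ] E) (u : ℤˣ) : E →ₗ[ℝ] E :=
  LinearMap.id + sg u • (σ.toLinearEquiv : E →ₗ[ℝ] E)

theorem phi_apply (σ : E ≃ₗᵢ[ℝ] E) (u : ℤˣ) (x : E) : phi σ u x = x + sg u • σ x := rfl

/-- the image of `L` under `x ↦ x + u σ x` -/
noncomputable def img (σ : E ≃ₗᵢ[ℝ] E) (u : ℤˣ) (L : AddSubgroup E) : AddSubgroup E :=
  L.map (phi σ u).toAddMonoidHom

theorem mem_part {σ : E ≃ₗᵢ[ℝ] E} {u : ℤˣ} {L : AddSubgroup E} {x : E} :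
    x ∈ part σ u L ↔ x ∈ L ∧ σ x = sg u • x := Iff.rfl

theorem mem_img {σ : E ≃ₗᵢ[ℝ] E} {u : ℤˣ} {L : AddSubgroup E} {y : E} :
    y ∈ img σ u L ↔ ∃ x ∈ L, x + sg u • σ x = y := by
  unfold img
  rw [AddSubgroup.mem_map]
  rfl

theorem smul_mem' (u : ℤˣ) {L : AddSubgroup E} {x : E} (hx : x ∈ L) : sg u • x ∈ L := by
  rcases Int.units_eq_one_or u with h | h
  · simpa [sg, h] using hx
  · have : sg u • x = -x := by simp [sg, h]
    rw [this]
    exact L.neg_mem hx

theorem part_le (σ : E ≃ₗᵢ[ℝ] E) (u : ℤˣ) (L : AddSubgroup E) : part σ u L ≤ L := fun _ h => h.1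

section Inv

variable {σ : E ≃ₗᵢ[ℝ] E} (hσ : ∀ x, σ (σ x) = x)
include hσ

theorem adj (x y : E) : inner ℝ (σ x) y = inner ℝ x (σ y) := by
  have h := σ.inner_map_map x (σ y)
  rw [hσ] at h
  exact h

theorem orth {u : ℤˣ} {x y : E} (hx : σ x = sg u • x) (hy : σ y = sg (-u) • y) :
    inner ℝ x y = 0 := by
  have h := adj hσ x y
  rw [hx, hy, inner_smul_left, inner_smul_right, sg_neg] at h
  simp only [conj_trivial] at h
  have h2 : sg u * inner ℝ x y = 0 := by linarith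
  rcases mul_eq_zero.mp h2 with h3 | h3
  · exact absurd h3 (sg_ne u)
  · exact h3

theorem sigma_phi (u : ℤˣ) (x : E) : σ (x + sg u • σ x) = sg u • (x + sg u • σ x) := by
  rw [map_add, map_smul, hσ, smul_add, smul_smul, sg_mul_self, one_smul, add_comm]

theorem img_le {L : AddSubgroup E} (hL : ∀ x ∈ L, σ x ∈ L) (u : ℤˣ) :
    img σ u L ≤ part σ u L := by
  intro y hy
  obtain ⟨x, hx, rfl⟩ := mem_img.mp hy
  exact ⟨L.add_mem hx (smul_mem' u (hL x hx)), sigma_phi hσ u x⟩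

omit hσ in
theorem dbl_le_img [FiniteDimensional ℝ E] {L : AddSubgroup E} (u : ℤˣ) : dbl (part σ u L) ≤ img σ u L := by
  intro y hy
  obtain ⟨x, hx, rfl⟩ := ThB_mem_dbl.mp hy
  refine mem_img.mpr ⟨x, hx.1, ?_⟩
  rw [hx.2, smul_smul, sg_mul_self, one_smul]

theorem quo_eq [FiniteDimensional ℝ E] {L : AddSubgroup E} (hL : ∀ x ∈ L, σ x ∈ L) (u : ℤˣ) :
    quo L (Submodule.span ℝ (part σ u L : Set E)) = scl ((2 : ℝ) ^ (-1 : ℤ)) (img σ (-u) L) := by
  set U := Submodule.span ℝ (part σ u L : Set E) with hU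
  have hp : ∀ x ∈ L, QuoA_p U x = (2 : ℝ) ^ (-1 : ℤ) • (x + sg (-u) • σ x) := by
    intro x hx
    have h1 : (2 : ℝ) ^ (-1 : ℤ) • (x + sg u • σ x) ∈ U := by
      refine Submodule.smul_mem _ _ (Submodule.subset_span ?_)
      exact img_le hσ hL u (mem_img.mpr ⟨x, hx, rfl⟩)
    have h2 : (2 : ℝ) ^ (-1 : ℤ) • (x + sg (-u) • σ x) ∈ Uᗮ := by
      refine Submodule.smul_mem _ _ ?_
      rw [Submodule.mem_orthogonal]
      intro z hz
      refine Submodule.span_induction (p := fun z _ => inner ℝ z (x + sg (-u) • σ x) = 0)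
        ?_ ?_ ?_ ?_ hz
      · intro z hz
        exact orth hσ hz.2 (sigma_phi hσ (-u) x)
      · simp
      · intro a b _ _ ha hb
        rw [inner_add_left, ha, hb, add_zero]
      · intro c a _ ha
        rw [inner_smul_left, ha, mul_zero]
    have h3 : x = (2 : ℝ) ^ (-1 : ℤ) • (x + sg u • σ x) +
        (2 : ℝ) ^ (-1 : ℤ) • (x + sg (-u) • σ x) := by
      rw [← smul_add, sg_neg]
      have : x + sg u • σ x + (x + -sg u • σ x) = (2 : ℝ) • x := by
        rw [two_smul, neg_smul]; abel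
      rw [this, smul_smul]
      norm_num
    have h4 : QuoA_p U x = x - U.starProjection x := Submodule.starProjection_orthogonal_val x
    have h5 : U.starProjection x = (2 : ℝ) ^ (-1 : ℤ) • (x + sg u • σ x) :=
      Submodule.eq_starProjection_of_mem_orthogonal' h1 h2 h3
    rw [h4, h5]
    rw [sub_eq_iff_eq_add, add_comm]
    exact h3
  ext y
  rw [QuoA_mem]
  unfold scl
  rw [AddSubgroup.mem_map]
  constructor
  · rintro ⟨x, hx, rfl⟩
    refine ⟨x + sg (-u) • σ x, mem_img.mpr ⟨x, hx, rfl⟩, ?_⟩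
    rw [hp x hx]
    rfl
  · rintro ⟨z, hz, rfl⟩
    obtain ⟨x, hx, rfl⟩ := mem_img.mp hz
    refine ⟨x, hx, ?_⟩
    rw [hp x hx]
    rfl

omit hσ in
theorem cut_eq {L : AddSubgroup E} (u : ℤˣ) :
    cut L (Submodule.span ℝ (part σ u L : Set E)) = part σ u L := by
  ext x
  rw [QuoA_mem_cut]
  constructor
  · rintro ⟨hx, hx'⟩
    refine ⟨hx, ?_⟩
    refine Submodule.span_induction (p := fun z _ => σ z = sg u • z) ?_ ?_ ?_ ?_ hx'
    · intro z hz
      exact hz.2
    · simp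
    · intro a b _ _ ha hb
      rw [map_add, ha, hb, smul_add]
    · intro c a _ ha
      rw [map_smul, ha, smul_comm]
  · intro hx
    exact ⟨hx.1, Submodule.subset_span hx⟩

variable [FiniteDimensional ℝ E]

theorem rk_img {L : AddSubgroup E} (hL : ∀ x ∈ L, σ x ∈ L) (u : ℤˣ) :
    rk (img σ u L) = rk (part σ u L) := by
  apply le_antisymm (rk_mono (img_le hσ hL u))
  rw [← rk_dbl (part σ u L)]
  exact rk_mono (dbl_le_img u)

omit hσ [FiniteDimensional ℝ E] in
theorem sat {L : AddSubgroup E} (u : ℤˣ) :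
    Sat L (Submodule.span ℝ (part σ u L : Set E)) := by
  unfold Sat
  rw [cut_eq]

theorem rk_split {L : AddSubgroup E} (hd : Disc L) (hL : ∀ x ∈ L, σ x ∈ L) (u : ℤˣ) :
    rk L = rk (part σ u L) + rk (part σ (-u) L) := by
  have h := rk_quo hd (sat (σ := σ) (L := L) u)
  rw [cut_eq, quo_eq hσ hL, (disc_scl (hd.mono ((img_le hσ hL (-u)).trans (part_le _ _ _)))
    (by norm_num)).2, rk_img hσ hL] at h
  exact h

/-- logarithm of `w` -/
noncomputable def lw (L : AddSubgroup E) : ℝ := Real.log (w L)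

omit [FiniteDimensional ℝ E] in
/-- the logarithm of the glue index -/
noncomputable def kap (σ : E ≃ₗᵢ[ℝ] E) (L : AddSubgroup E) : ℝ :=
  Real.log (w L) - Real.log (w (part σ 1 L)) - Real.log (w (part σ (-1) L))

omit hσ [FiniteDimensional ℝ E] in
theorem kap_eq (σ : E ≃ₗᵢ[ℝ] E) (L : AddSubgroup E) (u : ℤˣ) :
    kap σ L = lw L - lw (part σ u L) - lw (part σ (-u) L) := by
  unfold kap lw
  rcases Int.units_eq_one_or u with h | h
  · rw [h]
  · rw [h, neg_neg]; ring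

theorem lw_img {L : AddSubgroup E} (hd : Disc L) (hL : ∀ x ∈ L, σ x ∈ L) (u : ℤˣ) :
    lw (img σ u L) = lw (part σ u L) - rk (part σ u L) * Real.log 2 + kap σ L ∧
      kap σ L ≤ rk (part σ u L) * Real.log 2 := by
  have hdi : ∀ u, Disc (img σ u L) := fun u =>
    hd.mono ((img_le hσ hL u).trans (part_le _ _ _))
  have hdp : ∀ u, Disc (part σ u L) := fun u => hd.mono (part_le _ _ _)
  have h := w_quo hd (sat (σ := σ) (L := L) (-u))
  rw [cut_eq, quo_eq hσ hL, neg_neg, w_scl (hdi u), rk_img hσ hL] at h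
  have hpow : (2 : ℝ) ^ (-((-1 : ℤ) * (rk (part σ u L) : ℤ))) = 2 ^ (rk (part σ u L)) := by
    rw [neg_mul, neg_neg, one_mul]
    exact zpow_natCast _ _
  rw [hpow] at h
  have hw := w_pos (hdp (-u))
  have hwi := w_pos (hdi u)
  have hwp := w_pos (hdp u)
  have hlog : lw L = lw (part σ (-u) L) + (rk (part σ u L) * Real.log 2 + lw (img σ u L)) := by
    unfold lw
    rw [h, Real.log_mul hw.ne' (by positivity), Real.log_mul (by positivity) hwi.ne',
      Real.log_pow]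
  have hk := kap_eq σ L u
  constructor
  · rw [hk]; linarith
  · have hm : lw (img σ u L) ≤ lw (part σ u L) := by
      unfold lw
      exact Real.log_le_log hwi (w_mono (hdp u) (img_le hσ hL u) (rk_img hσ hL u))
    rw [hk]; linarith

end Inv

end Pool.Agent.Q197.HS
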