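import Pool.Agent.Q197.HS.Sub

/-! The induction step: gain of a constant factor. -/

set_option autoImplicit false

open H460 Finset

namespace Pool.Agent.Q197.HS

/-- `j` commuting involutions, all parts of rank at most `s`: bound for the volume -/
def Bd (s j : ℕ) (a : ℝ) : Prop :=
  ∀ (E : Type) [NormedAddCommGroup E] [InnerProductSpace ℝ E] [FiniteDimensional ℝ E]
    (ρ : Fin j → E ≃ₗᵢ[ℝ] E) (L : AddSubgroup E), Sym ρ L →
    (∀ e : Fin j → ℤˣ, rk (sub ρ univ e L) ≤ s) →
    ∀ l : ℝ, 0 < l → (∀ x ∈ L, x ≠ 0 → l < ‖x‖ ^ 2) →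
      lw L ≤ rk L / 2 * (a - Real.log l)

section

variable {E : Type} [NormedAddCommGroup E] [InnerProductSpace ℝ E] [FiniteDimensional ℝ E]

theorem rk_sum {j : ℕ} {ρ : Fin j → E ≃ₗᵢ[ℝ] E} {L : AddSubgroup E} (h : Sym ρ L) :
    ∑ e : Fin j → ℤˣ, rk (sub ρ univ e L) = rk L := by
  have h1 := sum_rk_sub h univ
  rw [Finset.card_univ] at h1
  exact Nat.eq_of_mul_eq_mul_left (by positivity) h1

theorem rk_le {s j : ℕ} {ρ : Fin j → E ≃ₗᵢ[ℝ] E} {L : AddSubgroup E} (h : Sym ρ L)
    (hs : ∀ e : Fin j → ℤˣ, rk (sub ρ univ e L) ≤ s) : rk L ≤ s * 2 ^ j := by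
  rw [← rk_sum h]
  refine (Finset.sum_le_card_nsmul _ _ s fun e _ => hs e).trans ?_
  simp [Fintype.card_units_int, mul_comm]

theorem blk_rk {s j m : ℕ} {σ : Fin (j + m) → E ≃ₗᵢ[ℝ] E} {L : AddSubgroup E}
    (hs : ∀ e : Fin (j + m) → ℤˣ, rk (sub σ univ e L) ≤ s) {K : AddSubgroup E}
    (e : Fin m → ℤˣ) (hK : K ≤ sub (fun i => σ (Fin.natAdd j i)) univ e L) (e' : Fin j → ℤˣ) :
    rk (sub (fun i => σ (Fin.castAdd m i)) univ e' K) ≤ s := by
  refine (rk_mono ?_).trans (hs (Fin.append e' e))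
  intro x hx
  have hx' := hK hx.1
  refine ⟨hx'.1, fun i _ => ?_⟩
  refine Fin.addCases (motive := fun i => σ i x = sg (Fin.append e' e i) • x) ?_ ?_ i
  · intro i
    rw [Fin.append_left]
    exact hx.2 i (mem_univ _)
  · intro i
    rw [Fin.append_right]
    exact hx'.2 i (mem_univ _)

end

theorem step {s j : ℕ} {a : ℝ} (hB : Bd s j a) {m : ℕ} (hm : m = 4 * 2 ^ (s * 2 ^ j)) :
    Bd s (j + m) (a + m * Real.log 2 - 1 / 30) := by
  classical
  intro E _ _ _ σ L hS hs l hl hmin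
  by_contra hcon
  rw [not_le] at hcon
  set ρ : Fin m → E ≃ₗᵢ[ℝ] E := fun i => σ (Fin.natAdd j i) with hρdef
  set τ : Fin j → E ≃ₗᵢ[ℝ] E := fun i => σ (Fin.castAdd m i) with hτdef
  have hρ : Sym ρ L := ⟨hS.disc, fun i => hS.inv _, fun i k => hS.comm _ _, fun i => hS.stab _⟩
  have hmpos : 1 ≤ m := by rw [hm]; have : 0 < 2 ^ (s * 2 ^ j) := by positivity
                           omega
  -- the bound for sublattices of the parts
  have hB' : ∀ (e : Fin m → ℤˣ) (K : AddSubgroup E), K ≤ sub ρ univ e L →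
      (∀ i, ∀ x ∈ K, τ i x ∈ K) → ∀ l' : ℝ, 0 < l' → (∀ x ∈ K, x ≠ 0 → l' < ‖x‖ ^ 2) →
      lw K ≤ rk K / 2 * (a - Real.log l') := by
    intro e K hK hst l' hl' hm'
    refine hB E τ K ⟨hS.disc.mono (hK.trans (sub_le _ _ _ _)), fun i => hS.inv _,
      fun i k => hS.comm _ _, hst⟩ (fun e' => blk_rk hs e hK e') l' hl' hm'
  -- stability of the parts
  have hst : ∀ (T : Finset (Fin m)) (e : Fin m → ℤˣ) (i : Fin j), ∀ x ∈ sub ρ T e L,
      τ i x ∈ sub ρ T e L := by
    intro T e i x hx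
    refine ⟨hS.stab _ x hx.1, fun k hk => ?_⟩
    have := hx.2 k hk
    have hc := hS.comm (Fin.natAdd j k) (Fin.castAdd m i) x
    show σ (Fin.natAdd j k) (σ (Fin.castAdd m i) x) = _
    rw [hc]
    have h2 : σ (Fin.natAdd j k) x = sg (e k) • x := this
    rw [h2, map_smul]
  set G : (Fin m → ℤˣ) → ℝ := fun e => lw (sub ρ univ e L) with hG
  set r : (Fin m → ℤˣ) → ℝ := fun e => (rk (sub ρ univ e L) : ℝ) with hr
  set A : ℝ := a - Real.log l with hA
  set X : (Fin m → ℤˣ) → ℝ := fun e => r e / 2 * A - G e with hX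
  have hX0 : ∀ e, 0 ≤ X e := by
    intro e
    have := hB' e _ le_rfl (hst univ e) l hl (fun x hx hx0 => hmin x hx.1 hx0)
    simp only [hX, hG, hr]
    linarith
  set κ : (Fin m → ℤˣ) → Fin m → ℝ := fun e i => kp ρ (univ.erase i) e L i with hκ
  set D : (Fin m → ℤˣ) → Fin m → ℝ := fun e i =>
    (r e + r (flip e i)) / 2 * Real.log 2 - κ e i with hD
  have hins : ∀ i : Fin m, insert i (univ.erase i) = (univ : Finset (Fin m)) :=
    fun i => Finset.insert_erase (mem_univ i)
  have hni : ∀ i : Fin m, i ∉ (univ.erase i : Finset (Fin m)) := fun i => notMem_erase i _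
  have hlog2 : (0 : ℝ) < Real.log 2 := Real.log_pos (by norm_num)
  have hκ1 : ∀ e i, κ e i ≤ r e * Real.log 2 ∧ κ e i ≤ r (flip e i) * Real.log 2 := by
    intro e i
    have := kp_le hρ e (hni i)
    rw [hins i] at this
    exact this
  have hG1 : ∀ e i, lw (sub ρ (univ.erase i) e L) = G e + G (flip e i) + κ e i := by
    intro e i
    have := lw_sub (ρ := ρ) (L := L) e (hni i)
    rw [hins i] at this
    exact this
  have hR : ∑ e, r e = rk L := by
    simp only [hr]
    exact_mod_cast rk_sum hρ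
  have hR' : ∀ i, ∑ e, r (flip e i) = rk L := fun i => by rw [sum_flip r i, hR]
  -- sum in one direction
  have hdir : ∀ i : Fin m, ∑ e, (2 * X (flip e i) + D e i) < (rk L : ℝ) / 30 := by
    intro i
    have h1 := sum_lw_sub hρ (univ.erase i)
    rw [Finset.sum_congr rfl fun e _ => hG1 e i, Finset.sum_add_distrib,
      Finset.sum_add_distrib, sum_flip G i, card_erase_of_mem (mem_univ i), card_univ,
      Fintype.card_fin] at h1
    have h2 : (2 : ℝ) ^ m = 2 * 2 ^ (m - 1) := by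
      rw [← pow_succ']
      congr 1
      omega
    have h3 : ((m - 1 : ℕ) : ℝ) = m - 1 := by
      rw [Nat.cast_sub hmpos]; norm_num
    rw [h2, h3] at h1
    have h4 : (0 : ℝ) < 2 ^ (m - 1) := by positivity
    have h5 : 2 * (lw L - (m - 1) * ((rk L : ℝ) / 2 * Real.log 2)) ≤
        ∑ e, G e + ∑ e, G e + ∑ e, κ e i := by
      refine le_of_mul_le_mul_left ?_ h4
      calc _ = 2 * 2 ^ (m - 1) * (lw L - (m - 1) * ((rk L : ℝ) / 2 * Real.log 2)) := by ring
        _ ≤ _ := h1
    have h6 : ∑ e, X e = (rk L : ℝ) / 2 * A - ∑ e, G e := by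
      simp only [hX]
      rw [Finset.sum_sub_distrib, ← Finset.sum_mul, ← Finset.sum_div, hR]
    have h7 : ∑ e, D e i = (rk L : ℝ) * Real.log 2 - ∑ e, κ e i := by
      simp only [hD]
      rw [Finset.sum_sub_distrib, ← Finset.sum_mul, ← Finset.sum_div, Finset.sum_add_distrib,
        hR, hR' i]
      ring
    rw [Finset.sum_add_distrib, ← Finset.mul_sum, sum_flip X i, h6, h7]
    have h8 : (rk L : ℝ) / 2 * (A + m * Real.log 2 - 1 / 30) < lw L := by
      refine lt_of_eq_of_lt ?_ hcon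
      rw [hA]; ring
    linarith
  -- the choice of the base point
  obtain ⟨e, -, he⟩ : ∃ e ∈ (univ : Finset (Fin m → ℤˣ)),
      ∑ i, (2 * X (flip e i) + D e i) < (m : ℝ) / 30 * r e := by
    refine Finset.exists_lt_of_sum_lt ?_
    rw [Finset.sum_comm, ← Finset.mul_sum, hR]
    refine (Finset.sum_lt_sum_of_nonempty ⟨⟨0, hmpos⟩, mem_univ _⟩ fun i _ => hdir i).trans_eq ?_
    rw [Finset.sum_const, card_univ, Fintype.card_fin, nsmul_eq_mul]
    ring
  have hDabs : ∀ i, r (flip e i) - r e ≤ 2 * D e i / Real.log 2 ∧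
      r e - r (flip e i) ≤ 2 * D e i / Real.log 2 := by
    intro i
    have h1 := hκ1 e i
    rw [le_div_iff₀ hlog2, le_div_iff₀ hlog2]
    simp only [hD]
    constructor <;> nlinarith [h1.1, h1.2]
  have hD0 : ∀ i, 0 ≤ D e i := by
    intro i
    have h1 := hκ1 e i
    simp only [hD]
    linarith [h1.1, h1.2]
  have hF0 : ∀ i, 0 ≤ 2 * X (flip e i) + D e i := fun i => by
    have := hX0 (flip e i); have := hD0 i; linarith
  have hrpos : 0 < r e := by
    have h1 : 0 < (m : ℝ) / 30 * r e := lt_of_le_of_lt (Finset.sum_nonneg fun i _ => hF0 i) he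
    have h2 : (0 : ℝ) < (m : ℝ) / 30 := by
      have : (1 : ℝ) ≤ m := by exact_mod_cast hmpos
      linarith
    exact (pos_iff_pos_of_mul_pos h1).mp h2
  set Gd : Finset (Fin m) := univ.filter fun i => 2 * X (flip e i) + D e i ≤ r e / 15 with hGd
  have hcard : 2 ^ (s * 2 ^ j) < #Gd := by
    have h1 : (#(univ.filter fun i : Fin m => ¬ (2 * X (flip e i) + D e i ≤ r e / 15)) : ℝ) *
        (r e / 15) ≤ ∑ i, (2 * X (flip e i) + D e i) := by
      rw [← nsmul_eq_mul]
      refine (Finset.card_nsmul_le_sum _ (fun i => 2 * X (flip e i) + D e i) _ ?_).trans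
        (Finset.sum_le_sum_of_subset_of_nonneg (filter_subset _ _) fun i _ _ => hF0 i)
      intro i hi
      rw [mem_filter] at hi
      exact (not_le.mp hi.2).le
    have h2 : (#(univ.filter fun i : Fin m => ¬ (2 * X (flip e i) + D e i ≤ r e / 15)) : ℝ) <
        m / 2 := by
      have h3 := h1.trans_lt he
      by_contra h4
      rw [not_lt] at h4
      nlinarith
    have h5 := Finset.card_filter_add_card_filter_not (s := (univ : Finset (Fin m)))
      (fun i => 2 * X (flip e i) + D e i ≤ r e / 15)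
    rw [card_univ, Fintype.card_fin] at h5
    have h6 : (#Gd : ℝ) + (#(univ.filter fun i : Fin m =>
      ¬ (2 * X (flip e i) + D e i ≤ r e / 15)) : ℝ) = m := by exact_mod_cast h5
    have h7 : (m : ℝ) = 4 * 2 ^ (s * 2 ^ j) := by rw [hm]; push_cast; ring
    have h8 : (0 : ℝ) < 2 ^ (s * 2 ^ j) := by positivity
    have h9 : (2 : ℝ) ^ (s * 2 ^ j) < #Gd := by linarith
    exact_mod_cast h9
  -- short vectors in the glue lattices
  have hshort : ∀ i ∈ Gd, ∃ f ∈ sub ρ (univ.erase i) e L,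
      f + sg (-(e i)) • ρ i f ≠ 0 ∧ ‖f + sg (-(e i)) • ρ i f‖ ^ 2 ≤ Real.exp (1 / 2) * l := by
    intro i hi
    rw [hGd, mem_filter] at hi
    have hi := hi.2
    by_contra hno
    have hSi := hρ.sub (univ.erase i) e
    have hpart : part (ρ i) (-(e i)) (sub ρ (univ.erase i) e L) = sub ρ univ (flip e i) L := by
      rw [part_sub_flip _ _ _ (hni i), hins i]
    have him := lw_img (hSi.inv i) hSi.disc (hSi.stab i) (-(e i))
    have hrk := rk_img (hSi.inv i) (hSi.stab i) (-(e i))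
    have hle := img_le (hSi.inv i) (hSi.stab i) (-(e i))
    rw [hpart] at him hrk hle
    have hl' : 0 < Real.exp (1 / 2) * l := by positivity
    have hb := hB' (flip e i) (img (ρ i) (-(e i)) (sub ρ (univ.erase i) e L)) hle ?_
      (Real.exp (1 / 2) * l) hl' ?_
    · rw [hrk, him.1, Real.log_mul (Real.exp_pos _).ne' hl.ne', Real.log_exp] at hb
      have hb2 : G (flip e i) - r (flip e i) * Real.log 2 + κ e i ≤
          r (flip e i) / 2 * (A - 1 / 2) := by
        refine hb.trans_eq ?_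
        rw [hA]; ring
      have hx1 : G (flip e i) = r (flip e i) / 2 * A - X (flip e i) := by
        simp only [hX]; ring
      have hk1 : κ e i = (r e + r (flip e i)) / 2 * Real.log 2 - D e i := by
        simp only [hD]; ring
      rw [hx1, hk1] at hb2
      have h1 := (hDabs i).1
      have h2 := (hDabs i).2
      rw [le_div_iff₀ hlog2] at h1
      have h3 := hX0 (flip e i)
      have h4 := hD0 i
      have hlog : (0.69 : ℝ) < Real.log 2 := by
        have := Real.log_two_gt_d9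
        linarith
      have h5 : D e i ≤ r e / 15 := by linarith
      have h6 : 2 * D e i / Real.log 2 ≤ 2 * (r e / 15) / 0.69 := by
        rw [div_le_div_iff₀ hlog2 (by norm_num)]
        nlinarith
      have h7 : r e - r (flip e i) ≤ 0.1933 * r e := by
        refine (h2.trans h6).trans ?_
        rw [div_le_iff₀ (by norm_num)]
        nlinarith
      nlinarith
    · intro k y hy
      obtain ⟨x, hx, rfl⟩ := mem_img.mp hy
      refine mem_img.mpr ⟨τ k x, hst _ _ k x hx, ?_⟩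
      rw [map_add, map_smul]
      congr 2
      exact hS.comm _ _ x
    · intro y hy hy0
      obtain ⟨x, hx, rfl⟩ := mem_img.mp hy
      by_contra h
      exact hno ⟨x, hx, hy0, not_lt.mp h⟩
  -- pigeonhole
  have hch : ∀ i : Fin m, ∃ (f : E) (P : sub ρ univ e L), i ∈ Gd →
      f ∈ sub ρ (univ.erase i) e L ∧ f + sg (-(e i)) • ρ i f ≠ 0 ∧
      ‖f + sg (-(e i)) • ρ i f‖ ^ 2 ≤ Real.exp (1 / 2) * l ∧
      (P : E) = f + sg (e i) • ρ i f := by
    intro i
    by_cases hi : i ∈ Gd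
    · obtain ⟨f, hf, h0, h1⟩ := hshort i hi
      have hSi := hρ.sub (univ.erase i) e
      have hmem : f + sg (e i) • ρ i f ∈ sub ρ univ e L := by
        have := img_le (hSi.inv i) (hSi.stab i) (e i) (mem_img.mpr ⟨f, hf, rfl⟩)
        rwa [part_sub, hins i] at this
      exact ⟨f, ⟨_, hmem⟩, fun _ => ⟨hf, h0, h1, rfl⟩⟩
    · exact ⟨0, 0, fun h => absurd h hi⟩
  choose f P hfP using hch
  have hSe := hρ.sub univ e
  have := QQ_finite hSe.disc
  have hfin : Fintype (QQ (sub ρ univ e L)) := Fintype.ofFinite _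
  have hcq : #(univ : Finset (QQ (sub ρ univ e L))) < #Gd := by
    rw [card_univ, ← Nat.card_eq_fintype_card, QQ_card hSe.disc]
    refine lt_of_le_of_lt ?_ hcard
    refine Nat.pow_le_pow_right (by norm_num) ?_
    refine rk_le (ρ := τ) ⟨hSe.disc, fun i => hS.inv _, fun i k => hS.comm _ _, hst univ e⟩
      fun e' => blk_rk hs e le_rfl e'
  obtain ⟨i, hi, k, hk, hik, hc⟩ := Finset.exists_ne_map_eq_of_card_lt_of_maps_to hcq
    (f := fun i => (QuotientAddGroup.mk (P i) : QQ (sub ρ univ e L))) (fun i _ => mem_univ _)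
  obtain ⟨g, hg, hge⟩ := (ThB_mk_eq (P k) (P i)).mp hc
  obtain ⟨hf1, hf2, hf3, hf4⟩ := hfP i hi
  obtain ⟨hk1, hk2, hk3, hk4⟩ := hfP k hk
  set q : E := f i + sg (-(e i)) • ρ i (f i) with hq
  set q' : E := f k + sg (-(e k)) • ρ k (f k) with hq'
  have hz : f i - f k - g ∈ L := L.sub_mem (L.sub_mem hf1.1 hk1.1) hg.1
  have h2z : (2 : ℝ) • (f i - f k - g) = q - q' := by
    have h1 : (2 : ℝ) • f i = (P i : E) + q := by
      rw [hf4, hq, sg_neg, neg_smul, two_smul]; abel
    have h2 : (2 : ℝ) • f k = (P k : E) + q' := by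
      rw [hk4, hq', sg_neg, neg_smul, two_smul]; abel
    rw [smul_sub, smul_sub, h1, h2, hge, two_smul]
    abel
  have horth : inner ℝ q' q = 0 := by
    have hqi : ρ i q = sg (-(e i)) • q := sigma_phi (hρ.inv i) _ _
    have hki : ρ i (f k) = sg (e i) • f k := hk1.2 i (mem_erase.mpr ⟨hik, mem_univ _⟩)
    have hq'i : ρ i q' = sg (e i) • q' := by
      rw [hq', map_add, map_smul, hρ.comm i k, hki, map_smul, smul_add, smul_comm]
    exact orth (hρ.inv i) hq'i hqi
  have hnorm : 4 * ‖f i - f k - g‖ ^ 2 = ‖q‖ ^ 2 + ‖q'‖ ^ 2 := by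
    have h1 : ‖(2 : ℝ) • (f i - f k - g)‖ ^ 2 = 4 * ‖f i - f k - g‖ ^ 2 := by
      rw [norm_smul, mul_pow]; norm_num
    rw [← h1, h2z, norm_sub_sq_real, real_inner_comm, horth]
    ring
  have hqpos : 0 < ‖q‖ ^ 2 := by
    have := norm_pos_iff.mpr hf2
    positivity
  have hz0 : f i - f k - g ≠ 0 := by
    intro h0
    rw [h0] at hnorm
    have : 0 ≤ ‖q'‖ ^ 2 := by positivity
    simp only [norm_zero] at hnorm
    nlinarith
  have hfinal := hmin _ hz hz0
  have hexp : Real.exp (1 / 2) < 2 := by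
    have h1 : Real.exp (1 / 2) ^ 2 = Real.exp 1 := by
      rw [← Real.exp_nat_mul]; norm_num
    have h2 := Real.exp_one_lt_d9
    have h3 := Real.exp_pos (1 / 2)
    nlinarith
  nlinarith

end Pool.Agent.Q197.HS
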