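import Pool.Agent.Q197.HS.Split

/-! Several commuting involutions: the parts of a lattice on which they are given signs. -/

set_option autoImplicit false

open H460 Finset

namespace Pool.Agent.Q197.HS

variable {E : Type*} [NormedAddCommGroup E] [InnerProductSpace ℝ E]
variable {ι : Type} [Fintype ι] [DecidableEq ι]

/-- the vectors `x` of `L` with `ρ i x = e i • x` for all `i ∈ T` -/
def sub (ρ : ι → E ≃ₗᵢ[ℝ] E) (T : Finset ι) (e : ι → ℤˣ) (L : AddSubgroup E) :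
    AddSubgroup E where
  carrier := {x | x ∈ L ∧ ∀ i ∈ T, ρ i x = sg (e i) • x}
  add_mem' := by
    rintro x y ⟨hx, hx'⟩ ⟨hy, hy'⟩
    exact ⟨L.add_mem hx hy, fun i hi => by rw [map_add, hx' i hi, hy' i hi, smul_add]⟩
  zero_mem' := ⟨L.zero_mem, by simp⟩
  neg_mem' := by
    rintro x ⟨hx, hx'⟩
    exact ⟨L.neg_mem hx, fun i hi => by rw [map_neg, hx' i hi, smul_neg]⟩

omit [Fintype ι] [DecidableEq ι] in
theorem mem_sub {ρ : ι → E ≃ₗᵢ[ℝ] E} {T : Finset ι} {e : ι → ℤˣ} {L : AddSubgroup E} {x : E} :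
    x ∈ sub ρ T e L ↔ x ∈ L ∧ ∀ i ∈ T, ρ i x = sg (e i) • x := Iff.rfl

/-- change of the sign of `i` -/
def flip (e : ι → ℤˣ) (i : ι) : ι → ℤˣ := Function.update e i (-(e i))

omit [Fintype ι] in
theorem flip_self (e : ι → ℤˣ) (i : ι) : flip e i i = -(e i) := by simp [flip]

omit [Fintype ι] in
theorem flip_of_ne {e : ι → ℤˣ} {i j : ι} (h : j ≠ i) : flip e i j = e j := by
  simp [flip, Function.update_of_ne h]

omit [Fintype ι] in
theorem flip_flip (e : ι → ℤˣ) (i : ι) : flip (flip e i) i = e := by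
  funext j
  by_cases h : j = i
  · subst h; rw [flip_self, flip_self, neg_neg]
  · rw [flip_of_ne h, flip_of_ne h]

theorem sum_flip {M : Type*} [AddCommMonoid M] (f : (ι → ℤˣ) → M) (i : ι) :
    ∑ e, f (flip e i) = ∑ e, f e := by
  refine Fintype.sum_equiv ⟨fun e => flip e i, fun e => flip e i, fun e => flip_flip e i,
    fun e => flip_flip e i⟩ _ _ fun e => rfl

omit [Fintype ι] [DecidableEq ι] in
theorem sub_empty (ρ : ι → E ≃ₗᵢ[ℝ] E) (e : ι → ℤˣ) (L : AddSubgroup E) :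
    sub ρ ∅ e L = L := by
  ext x
  rw [mem_sub]
  simp

omit [Fintype ι] [DecidableEq ι] in
theorem sub_le (ρ : ι → E ≃ₗᵢ[ℝ] E) (T : Finset ι) (e : ι → ℤˣ) (L : AddSubgroup E) :
    sub ρ T e L ≤ L := fun _ h => h.1

omit [Fintype ι] in
theorem part_sub (ρ : ι → E ≃ₗᵢ[ℝ] E) (T : Finset ι) (e : ι → ℤˣ) (L : AddSubgroup E) (i : ι) :
    part (ρ i) (e i) (sub ρ T e L) = sub ρ (insert i T) e L := by
  ext x
  rw [mem_part, mem_sub, mem_sub, Finset.forall_mem_insert]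
  tauto

omit [Fintype ι] in
theorem part_sub_flip (ρ : ι → E ≃ₗᵢ[ℝ] E) {T : Finset ι} (e : ι → ℤˣ) (L : AddSubgroup E)
    {i : ι} (hi : i ∉ T) :
    part (ρ i) (-(e i)) (sub ρ T e L) = sub ρ (insert i T) (flip e i) L := by
  ext x
  rw [mem_part, mem_sub, mem_sub, Finset.forall_mem_insert, flip_self]
  constructor
  · rintro ⟨⟨h1, h2⟩, h3⟩
    refine ⟨h1, h3, fun j hj => ?_⟩
    have hji : j ≠ i := fun h => hi (by rw [← h]; exact hj)
    rw [flip_of_ne hji]; exact h2 j hj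
  · rintro ⟨h1, h3, h2⟩
    refine ⟨⟨h1, fun j hj => ?_⟩, h3⟩
    have := h2 j hj
    have hji : j ≠ i := fun h => hi (by rw [← h]; exact hj)
    rwa [flip_of_ne hji] at this

/-- a discrete subgroup with commuting isometric involutions -/
structure Sym {ι : Type} (ρ : ι → E ≃ₗᵢ[ℝ] E) (L : AddSubgroup E) : Prop where
  disc : Disc L
  inv : ∀ i x, ρ i (ρ i x) = x
  comm : ∀ i j x, ρ i (ρ j x) = ρ j (ρ i x)
  stab : ∀ i, ∀ x ∈ L, ρ i x ∈ L

omit [Fintype ι] [DecidableEq ι] in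
theorem Sym.sub [FiniteDimensional ℝ E] {ρ : ι → E ≃ₗᵢ[ℝ] E} {L : AddSubgroup E} (h : Sym ρ L) (T : Finset ι)
    (e : ι → ℤˣ) : Sym ρ (sub ρ T e L) where
  disc := h.disc.mono (sub_le _ _ _ _)
  inv := h.inv
  comm := h.comm
  stab := fun i x hx => ⟨h.stab i x hx.1, fun j hj => by
    rw [h.comm, hx.2 j hj, map_smul]⟩

variable [FiniteDimensional ℝ E]

omit [Fintype ι] in
theorem rk_sub {ρ : ι → E ≃ₗᵢ[ℝ] E} {L : AddSubgroup E} (h : Sym ρ L) {T : Finset ι}
    (e : ι → ℤˣ) {i : ι} (hi : i ∉ T) :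
    rk (sub ρ T e L) = rk (sub ρ (insert i T) e L) + rk (sub ρ (insert i T) (flip e i) L) := by
  have h1 := h.sub T e
  rw [rk_split (h.inv i) h1.disc (h1.stab i) (e i), part_sub, part_sub_flip _ _ _ hi]

/-- the logarithm of the glue index in the direction `i` -/
noncomputable def kp (ρ : ι → E ≃ₗᵢ[ℝ] E) (T : Finset ι) (e : ι → ℤˣ) (L : AddSubgroup E)
    (i : ι) : ℝ := kap (ρ i) (sub ρ T e L)

omit [Fintype ι] [FiniteDimensional ℝ E] in
theorem lw_sub {ρ : ι → E ≃ₗᵢ[ℝ] E} {L : AddSubgroup E} {T : Finset ι}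
    (e : ι → ℤˣ) {i : ι} (hi : i ∉ T) :
    lw (sub ρ T e L) = lw (sub ρ (insert i T) e L) + lw (sub ρ (insert i T) (flip e i) L) +
      kp ρ T e L i := by
  have := kap_eq (ρ i) (sub ρ T e L) (e i)
  rw [part_sub, part_sub_flip _ _ _ hi] at this
  unfold kp
  rw [this]; ring

omit [Fintype ι] in
theorem kp_le {ρ : ι → E ≃ₗᵢ[ℝ] E} {L : AddSubgroup E} (h : Sym ρ L) {T : Finset ι}
    (e : ι → ℤˣ) {i : ι} (hi : i ∉ T) :
    kp ρ T e L i ≤ rk (sub ρ (insert i T) e L) * Real.log 2 ∧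
      kp ρ T e L i ≤ rk (sub ρ (insert i T) (flip e i) L) * Real.log 2 := by
  have h1 := h.sub T e
  constructor
  · have := (lw_img (h.inv i) h1.disc (h1.stab i) (e i)).2
    rwa [part_sub] at this
  · have := (lw_img (h.inv i) h1.disc (h1.stab i) (-(e i))).2
    rwa [part_sub_flip _ _ _ hi] at this

theorem sum_rk_sub {ρ : ι → E ≃ₗᵢ[ℝ] E} {L : AddSubgroup E} (h : Sym ρ L) (T : Finset ι) :
    2 ^ #T * ∑ e : ι → ℤˣ, rk (sub ρ T e L) = 2 ^ Fintype.card ι * rk L := by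
  induction T using Finset.induction_on with
  | empty =>
    simp [sub_empty, Fintype.card_units_int]
  | insert i T hi ih =>
    rw [← ih, Finset.card_insert_of_notMem hi, pow_succ, mul_assoc]
    congr 1
    rw [Finset.sum_congr rfl fun e _ => rk_sub h e hi, Finset.sum_add_distrib,
      sum_flip (fun e => rk (sub ρ (insert i T) e L)) i, two_mul]

theorem sum_lw_sub {ρ : ι → E ≃ₗᵢ[ℝ] E} {L : AddSubgroup E} (h : Sym ρ L) (T : Finset ι) :
    2 ^ Fintype.card ι * (lw L - #T * (rk L / 2 * Real.log 2)) ≤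
      2 ^ #T * ∑ e : ι → ℤˣ, lw (sub ρ T e L) := by
  induction T using Finset.induction_on with
  | empty =>
    simp [sub_empty, Fintype.card_units_int]
  | insert i T hi ih =>
    have h1 : ∑ e : ι → ℤˣ, lw (sub ρ T e L) ≤
        2 * (∑ e : ι → ℤˣ, lw (sub ρ (insert i T) e L)) +
          (∑ e : ι → ℤˣ, (rk (sub ρ T e L) : ℝ)) / 2 * Real.log 2 := by
      have h2 : ∀ e : ι → ℤˣ, lw (sub ρ T e L) ≤ lw (sub ρ (insert i T) e L) +
          lw (sub ρ (insert i T) (flip e i) L) + (rk (sub ρ T e L) : ℝ) / 2 * Real.log 2 := by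
        intro e
        rw [lw_sub e hi]
        have h3 := (kp_le h e hi).1
        have h4 := (kp_le h e hi).2
        have h5 : (rk (sub ρ T e L) : ℝ) = rk (sub ρ (insert i T) e L) +
          rk (sub ρ (insert i T) (flip e i) L) := by exact_mod_cast rk_sub h e hi
        rw [h5]
        linarith
      refine (Finset.sum_le_sum fun e _ => h2 e).trans ?_
      rw [Finset.sum_add_distrib, Finset.sum_add_distrib,
        sum_flip (fun e => lw (sub ρ (insert i T) e L)) i, ← Finset.sum_mul, ← Finset.sum_div,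
        two_mul]
    have h6 : (2 : ℝ) ^ #T * ∑ e : ι → ℤˣ, (rk (sub ρ T e L) : ℝ) =
        2 ^ Fintype.card ι * rk L := by exact_mod_cast sum_rk_sub h T
    rw [Finset.card_insert_of_notMem hi, pow_succ]
    have h7 := mul_le_mul_of_nonneg_left h1 (show (0 : ℝ) ≤ 2 ^ #T by positivity)
    push_cast
    have h8 : (2 : ℝ) ^ #T * (2 * (∑ e : ι → ℤˣ, lw (sub ρ (insert i T) e L)) +
          (∑ e : ι → ℤˣ, (rk (sub ρ T e L) : ℝ)) / 2 * Real.log 2) =
        2 ^ #T * 2 * ∑ e : ι → ℤˣ, lw (sub ρ (insert i T) e L) +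
          (2 ^ #T * ∑ e : ι → ℤˣ, (rk (sub ρ T e L) : ℝ)) / 2 * Real.log 2 := by ring
    rw [h8, h6] at h7
    have h9 := ih.trans h7
    linarith

end Pool.Agent.Q197.HS
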